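import Mathlib
import Pool.Agent.EF.MainInd

/-!
# Transcendence degree of the exponential generating functions of the zeta tails

For `k = 1` let `tail k n = γ - H_n`, for `k ≥ 2` let `tail k n = ∑_{i > n} i⁻ᵏ`, and let
`F k z = ∑ₙ tail k n * zⁿ / n!`. Then `F 1 0 = γ`, `F 2 0 = π² / 6`, `F 3 0 = ζ(3)`. Over the
field generated by all exponentials of algebraic numbers, all the numbers
`exp (-z) * F k z - F k 0` with `k ≥ 1` and `z ≠ 0` algebraic are algebraically independent.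

Consequence (theorem `degree_class`): let each odd `k` be a class, and let all even `k` together be
one class; for every finite set `P` of pairs `(k, z)` with `k ≥ 1` and `z` algebraic, which
contains at most one pair `(k, 0)` with `k` even, the numbers `F k z`, `(k, z) ∈ P`, have
transcendence degree at least `|P|` minus the number of classes of the `k` occurring in `P`.
-/

namespace Pool.Agent.Results.MP_e48a95_nt.ExpTails

/-- `γ - H_n` for `k = 1`, and `∑_{i > n} i⁻ᵏ` for `k ≠ 1`. -/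
noncomputable def tail (k n : ℕ) : ℝ :=
  if k = 1 then Real.eulerMascheroniConstant - ∑ i ∈ Finset.range n, 1 / ((i : ℝ) + 1)
  else ∑' i : ℕ, 1 / ((n : ℝ) + i + 1) ^ k

/-- The exponential generating function of the tails. -/
noncomputable def F (k : ℕ) (z : ℂ) : ℂ :=
  ∑' n : ℕ, (tail k n : ℂ) * z ^ n / (n.factorial : ℂ)

/-- The field generated over `ℚ` by all exponentials of algebraic numbers. -/
noncomputable def M : IntermediateField ℚ ℂ :=
  IntermediateField.adjoin ℚ {x : ℂ | ∃ β : ℂ, IsAlgebraic ℚ β ∧ x = Complex.exp β}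

/-- The constants: `γ` and `ζ(k)`. -/
noncomputable def cst (k : ℕ) : ℝ :=
  if k = 1 then Real.eulerMascheroniConstant else ∑' i : ℕ, 1 / ((i : ℝ) + 1) ^ k

lemma summable_zeta {k : ℕ} (hk : 2 ≤ k) : Summable fun i : ℕ => 1 / ((i : ℝ) + 1) ^ k := by
  have h := (summable_nat_add_iff 1).2 (Real.summable_one_div_nat_pow.2 (by omega : 1 < k))
  refine h.congr fun i => ?_
  push_cast
  rfl

lemma tail_eq {k : ℕ} (hk : 1 ≤ k) (n : ℕ) :
    (tail k n : ℂ) = (cst k : ℂ) - EF.hn ℂ k n := by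
  have h1 : EF.hn ℂ k n = ((∑ i ∈ Finset.range n, 1 / ((i : ℝ) + 1) ^ k : ℝ) : ℂ) := by
    rw [EF.hn]
    push_cast
    rfl
  rw [h1, ← Complex.ofReal_sub]
  congr 1
  by_cases h : k = 1
  · rw [tail, cst, if_pos h, if_pos h, h]
    simp
  · have hk2 : 2 ≤ k := by omega
    rw [tail, cst, if_neg h, if_neg h, eq_sub_iff_add_eq, add_comm,
      ← (summable_zeta hk2).sum_add_tsum_nat_add n]
    congr 1
    refine tsum_congr fun i => ?_
    push_cast
    rw [add_comm (n : ℝ) i]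

lemma summable_hn (k : ℕ) (z : ℂ) :
    Summable fun n : ℕ => EF.hn ℂ k n * z ^ n / (n.factorial : ℂ) := by
  have h1 : Summable fun n : ℕ => (2 * ‖z‖) ^ n / (n.factorial : ℝ) :=
    Real.summable_pow_div_factorial _
  refine Summable.of_norm (Summable.of_nonneg_of_le (fun _ => norm_nonneg _) (fun n => ?_) h1)
  have h2 : ‖EF.hn ℂ k n‖ ≤ (2 : ℝ) ^ n := by
    have h3 : ‖EF.hn ℂ k n‖ ≤ (n : ℝ) := by
      rw [EF.hn]
      refine (norm_sum_le _ _).trans ?_
      have h4 : ∀ i ∈ Finset.range n, ‖(1 : ℂ) / ((i : ℂ) + 1) ^ k‖ ≤ 1 := by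
        intro i _
        rw [norm_div, norm_one, norm_pow]
        have h5 : (1 : ℝ) ≤ ‖((i : ℂ) + 1)‖ := by
          have h6 : ((i : ℂ) + 1) = ((i + 1 : ℕ) : ℂ) := by push_cast; rfl
          rw [h6, Complex.norm_natCast]
          exact_mod_cast Nat.succ_le_succ (Nat.zero_le i)
        exact div_le_one_of_le₀ (one_le_pow₀ h5) (by positivity)
      refine (Finset.sum_le_sum h4).trans ?_
      simp
    refine h3.trans ?_
    exact_mod_cast Nat.lt_two_pow_self.le
  rw [norm_div, norm_mul, norm_pow, Complex.norm_natCast, mul_pow]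
  gcongr

lemma F_eq {k : ℕ} (hk : 1 ≤ k) (z : ℂ) :
    F k z = Complex.exp z * ((cst k : ℂ) - EF.Uc k z) := by
  have h1 : Summable fun n : ℕ => (cst k : ℂ) * (z ^ n / (n.factorial : ℂ)) :=
    (NormedSpace.expSeries_div_summable (𝔸 := ℂ) z).mul_left _
  have h2 : F k z = ∑' n : ℕ, ((cst k : ℂ) * (z ^ n / (n.factorial : ℂ)) -
      EF.hn ℂ k n * z ^ n / (n.factorial : ℂ)) := by
    refine tsum_congr fun n => ?_
    rw [tail_eq hk]
    ring
  rw [h2, h1.tsum_sub (summable_hn k z), tsum_mul_left, EF.Uc, mul_sub, ← mul_assoc (Complex.exp z),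
    ← Complex.exp_add, add_neg_cancel, Complex.exp_zero, one_mul, Complex.exp_eq_exp_ℂ,
    NormedSpace.exp_eq_tsum_div]
  ring

/-- The base point of a level. -/
noncomputable def base (P : Finset (ℕ × ℂ)) (k : ℕ) : ℂ := by
  classical
  exact if (k, (0 : ℂ)) ∈ P then 0 else
    if h : ∃ z, (k, z) ∈ P then h.choose else 0

lemma base_mem {P : Finset (ℕ × ℂ)} {k : ℕ} {z : ℂ} (h : (k, z) ∈ P) : (k, base P k) ∈ P := by
  classical
  unfold base
  by_cases h0 : (k, (0 : ℂ)) ∈ P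
  · rw [if_pos h0]; exact h0
  · have h1 : ∃ z, (k, z) ∈ P := ⟨z, h⟩
    rw [if_neg h0, dif_pos h1]
    exact h1.choose_spec

lemma ne_zero_of_ne_base {P : Finset (ℕ × ℂ)} {k : ℕ} {z : ℂ} (h : (k, z) ∈ P)
    (hz : z ≠ base P k) : z ≠ 0 := by
  classical
  rintro rfl
  apply hz
  unfold base
  rw [if_pos h]

lemma base_alg {P : Finset (ℕ × ℂ)} (hP : ∀ p ∈ P, 1 ≤ p.1 ∧ IsAlgebraic ℚ p.2) (k : ℕ) :
    IsAlgebraic ℚ (base P k) := by
  classical
  by_cases h : ∃ z, (k, z) ∈ P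
  · obtain ⟨z, hz⟩ := h
    exact (hP _ (base_mem hz)).2
  · unfold base
    rw [if_neg (fun h0 => h ⟨0, h0⟩), dif_neg h]
    exact isAlgebraic_zero

lemma exp_mem {β : ℂ} (h : IsAlgebraic ℚ β) : Complex.exp β ∈ M :=
  IntermediateField.subset_adjoin _ _ ⟨β, h, rfl⟩

theorem degree (P : Finset (ℕ × ℂ)) (hP : ∀ p ∈ P, 1 ≤ p.1 ∧ IsAlgebraic ℚ p.2) :
    ((P.card - (P.image Prod.fst).card : ℕ) : Cardinal) ≤
      Algebra.trdeg M (IntermediateField.adjoin M ((fun p : ℕ × ℂ => F p.1 p.2) '' P)) := by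
  classical
  set N := IntermediateField.adjoin M ((fun p : ℕ × ℂ => F p.1 p.2) '' P) with hN
  set T : Finset (ℕ × ℂ) := P.filter fun p => p.2 ≠ base P p.1 with hT
  have hcard : P.card - (P.image Prod.fst).card ≤ T.card := by
    have h1 : (P.filter fun p => ¬ p.2 ≠ base P p.1).card ≤ (P.image Prod.fst).card := by
      refine Finset.card_le_card_of_injOn Prod.fst ?_ ?_
      · intro p hp
        rw [Finset.mem_coe, Finset.mem_filter] at hp
        exact Finset.mem_coe.2 (Finset.mem_image_of_mem _ hp.1)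
      · intro p hp q hq hpq
        rw [Finset.mem_coe, Finset.mem_filter, not_not] at hp hq
        refine Prod.ext hpq ?_
        rw [hp.2, hq.2, hpq]
    have h2 := Finset.card_filter_add_card_filter_not (s := P) (fun p => p.2 ≠ base P p.1)
    rw [← hT] at h2
    omega
  -- the family
  have hmem : ∀ p ∈ T, p ∈ P ∧ p.2 ≠ base P p.1 := fun p hp => Finset.mem_filter.1 hp
  have hbase : ∀ j, IsAlgebraic ℚ (base P (j + 1)) := fun j => base_alg hP _
  have h1 := EF.algInd_Uc (z0 := fun j => base P (j + 1)) hbase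
  let e : {p : ℕ × ℂ // p ∈ T} →
      {p : ℂ × ℕ // IsAlgebraic ℚ p.1 ∧ p.1 ≠ 0 ∧ p.1 ≠ base P (p.2 + 1)} := fun p =>
    ⟨(p.1.2, p.1.1 - 1), (hP _ (hmem _ p.2).1).2,
      ne_zero_of_ne_base (hmem _ p.2).1 (hmem _ p.2).2, by
        have h3 := (hP _ (hmem _ p.2).1).1
        have h4 : p.1.1 - 1 + 1 = p.1.1 := Nat.sub_add_cancel h3
        simp only
        rw [h4]
        exact (hmem _ p.2).2⟩
  have he : Function.Injective e := by
    rintro ⟨⟨k, z⟩, hp⟩ ⟨⟨l, w⟩, hq⟩ h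
    rw [Subtype.mk.injEq, Prod.mk.injEq] at h
    have h3 := (hP _ (hmem _ hp).1).1
    have h4 := (hP _ (hmem _ hq).1).1
    simp only at h h3 h4
    rw [Subtype.mk.injEq, Prod.mk.injEq]
    exact ⟨by omega, h.1⟩
  have h2 := h1.comp e he
  -- the members of the family lie in `N`
  have hin : ∀ p : {p : ℕ × ℂ // p ∈ T},
      EF.Uc ((e p).1.2 + 1) (base P ((e p).1.2 + 1)) - EF.Uc ((e p).1.2 + 1) (e p).1.1 ∈ N := by
    rintro ⟨⟨k, z⟩, hp⟩
    have hk := (hP _ (hmem _ hp).1).1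
    simp only at hk
    have h3 : k - 1 + 1 = k := Nat.sub_add_cancel hk
    change EF.Uc (k - 1 + 1) (base P (k - 1 + 1)) - EF.Uc (k - 1 + 1) z ∈ N
    rw [h3]
    have hPz := (hmem _ hp).1
    have hPb := base_mem hPz
    have key : ∀ w, (k, w) ∈ P → (cst k : ℂ) - EF.Uc k w ∈ N := by
      intro w hw
      have e1 : (cst k : ℂ) - EF.Uc k w = Complex.exp (-w) * F k w := by
        rw [F_eq hk, ← mul_assoc, ← Complex.exp_add, neg_add_cancel, Complex.exp_zero, one_mul]
      rw [e1]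
      refine N.mul_mem ?_ ?_
      · have := (algebraMap M N ⟨Complex.exp (-w), exp_mem (hP _ hw).2.neg⟩).2
        exact this
      · exact IntermediateField.subset_adjoin _ _ ⟨(k, w), hw, rfl⟩
    have e2 : EF.Uc k (base P k) - EF.Uc k z =
        ((cst k : ℂ) - EF.Uc k z) - ((cst k : ℂ) - EF.Uc k (base P k)) := by ring
    rw [e2]
    exact N.sub_mem (key z hPz) (key _ hPb)
  have h3 : AlgebraicIndependent M (fun p : {p : ℕ × ℂ // p ∈ T} => (⟨_, hin p⟩ : N)) := by
    rw [← AlgHom.algebraicIndependent_iff N.val Subtype.val_injective]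
    exact h2
  have h4 := h3.cardinalMk_le_trdeg
  refine le_trans ?_ h4
  rw [Cardinal.mk_coe_finset]
  exact_mod_cast hcard

lemma F_zero (k : ℕ) : F k 0 = (tail k 0 : ℂ) := by
  rw [F, tsum_eq_single 0]
  · simp
  · intro n hn
    rw [zero_pow hn, mul_zero, zero_div]


/-! ### The even levels -/

/-- adjoining one element -/
theorem trdeg_simple_le {K L : Type} [Field K] [Field L] [Algebra K L] (x : L) :
    Algebra.trdeg K (IntermediateField.adjoin K ({x} : Set L)) ≤ 1 := by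
  let x' : IntermediateField.adjoin K ({x} : Set L) :=
    ⟨x, IntermediateField.mem_adjoin_simple_self K x⟩
  have hal : Algebra.IsAlgebraic
      (Algebra.adjoin K ({x'} : Set (IntermediateField.adjoin K ({x} : Set L))))
      (IntermediateField.adjoin K ({x} : Set L)) := by
    constructor
    intro α
    obtain ⟨r, s, hrs⟩ := (IntermediateField.mem_adjoin_simple_iff K (α : L)).1 α.2
    have h1 : α = (Polynomial.aeval x' r) * (Polynomial.aeval x' s)⁻¹ := by
      apply Subtype.ext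
      rw [IntermediateField.coe_mul, IntermediateField.coe_inv, hrs, div_eq_mul_inv]
      congr 1
      · exact (Polynomial.aeval_algebraMap_apply L x' r)
      · exact congrArg _ (Polynomial.aeval_algebraMap_apply L x' s)
    have h2 : ∀ t : Polynomial K, Polynomial.aeval x' t ∈
        Algebra.adjoin K ({x'} : Set (IntermediateField.adjoin K ({x} : Set L))) := by
      intro t
      exact Polynomial.aeval_mem_adjoin_singleton K x'
    rw [h1]
    refine IsAlgebraic.mul ?_ (IsAlgebraic.inv ?_)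
    · exact isAlgebraic_algebraMap (⟨_, h2 r⟩ : Algebra.adjoin K ({x'} : Set _))
    · exact isAlgebraic_algebraMap (⟨_, h2 s⟩ : Algebra.adjoin K ({x'} : Set _))
  have h := Algebra.IsAlgebraic.trdeg_le_cardinalMk (R := K)
    (s := ({x'} : Set (IntermediateField.adjoin K ({x} : Set L))))
  simpa using h

/-- an algebraically independent family in `N(x)` -/
theorem card_le_of_simple {K L ι : Type} [Field K] [Field L] [Algebra K L]
    (N : IntermediateField K L) (x : L) (y : ι → L) (hy : AlgebraicIndependent K y)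
    (hN : ∀ i, y i ∈ IntermediateField.adjoin N ({x} : Set L)) :
    Cardinal.mk ι ≤
      Algebra.trdeg K N + Algebra.trdeg N (IntermediateField.adjoin N ({x} : Set L)) := by
  rw [trdeg_add_eq K N (A := IntermediateField.adjoin N ({x} : Set L))]
  have h1 : AlgebraicIndependent K
      (fun i => (⟨y i, hN i⟩ : IntermediateField.adjoin N ({x} : Set L))) := by
    rw [← AlgHom.algebraicIndependent_iff
      ((IntermediateField.adjoin N ({x} : Set L)).val.restrictScalars K) Subtype.val_injective]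
    exact hy
  exact h1.cardinalMk_le_trdeg

/-- Euler: `ζ(k)` is a nonzero rational multiple of `π ^ k` for even `k`. -/
lemma cst_even {k : ℕ} (hk : 1 ≤ k) (he : Even k) :
    ∃ (q : ℚ) (j : ℕ), q ≠ 0 ∧ 1 ≤ j ∧ (cst k : ℂ) = (q : ℂ) * ((Real.pi : ℂ) ^ 2) ^ j := by
  obtain ⟨j, rfl⟩ := he
  have hj : j ≠ 0 := by omega
  have h2 : 2 ≤ j + j := by omega
  have hs := (hasSum_zeta_nat hj).tsum_eq
  have hz : cst (j + j) = ∑' n : ℕ, 1 / (n : ℝ) ^ (2 * j) := by
    rw [cst, if_neg (by omega),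
      (Real.summable_one_div_nat_pow.2 (by omega : 1 < 2 * j)).tsum_eq_zero_add]
    rw [Nat.cast_zero, zero_pow (by omega), div_zero, zero_add]
    refine tsum_congr fun n => ?_
    push_cast
    rw [two_mul]
  have hpos : 0 < cst (j + j) := by
    rw [cst, if_neg (by omega)]
    exact (summable_zeta h2).tsum_pos (fun i => by positivity) 0 (by positivity)
  obtain ⟨q, hq⟩ : ∃ q : ℚ, q = (-1 : ℚ) ^ (j + 1) * 2 ^ (2 * j - 1) * bernoulli (2 * j) /
      (2 * j).factorial := ⟨_, rfl⟩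
  have hval : cst (j + j) = (q : ℝ) * (Real.pi ^ 2) ^ j := by
    rw [hz, hs, hq]
    push_cast
    rw [← pow_mul]
    ring
  refine ⟨q, j, ?_, by omega, ?_⟩
  · rintro rfl
    rw [hval] at hpos
    simp at hpos
  · rw [hval]
    push_cast
    rfl

lemma Uc_zero (k : ℕ) : EF.Uc k 0 = 0 := by
  rw [EF.Uc, tsum_eq_single 0]
  · simp [EF.hn]
  · intro n hn
    rw [zero_pow hn]
    simp

/-- **The transcendence degree when an even level occurs.** -/
theorem degree_even (P : Finset (ℕ × ℂ)) (hP : ∀ p ∈ P, 1 ≤ p.1 ∧ IsAlgebraic ℚ p.2)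
    (hE : ∀ p ∈ P, ∀ q ∈ P, Even p.1 → Even q.1 → p.2 = 0 → q.2 = 0 → p = q)
    (hex : ∃ p ∈ P, Even p.1) :
    ((P.card - (P.image fun p => if Even p.1 then 0 else p.1).card : ℕ) : Cardinal) ≤
      Algebra.trdeg M (IntermediateField.adjoin M ((fun p : ℕ × ℂ => F p.1 p.2) '' P)) := by
  classical
  set N := IntermediateField.adjoin M ((fun p : ℕ × ℂ => F p.1 p.2) '' P) with hN
  set Cl := P.image fun p => if Even p.1 then 0 else p.1 with hCl
  obtain ⟨b, hb⟩ : ∃ b : ℕ → ℂ, b = fun k => if Even k then 0 else base P k := ⟨_, rfl⟩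
  have hbe : ∀ {k : ℕ}, Even k → b k = 0 := fun h => by rw [hb]; exact if_pos h
  have hbo : ∀ {k : ℕ}, ¬ Even k → b k = base P k := fun h => by rw [hb]; exact if_neg h
  have hbalg : ∀ k, IsAlgebraic ℚ (b k) := by
    intro k
    by_cases h : Even k
    · rw [hbe h]; exact isAlgebraic_zero
    · rw [hbo h]; exact base_alg hP k
  set T : Finset (ℕ × ℂ) := P.filter fun p => p.2 ≠ b p.1 with hT
  have hmem : ∀ p ∈ T, p ∈ P ∧ p.2 ≠ b p.1 := fun p hp => Finset.mem_filter.1 hp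
  have hne : ∀ p ∈ T, p.2 ≠ 0 := by
    intro p hp
    obtain ⟨h1, h2⟩ := hmem p hp
    by_cases h : Even p.1
    · rwa [hbe h] at h2
    · rw [hbo h] at h2
      exact ne_zero_of_ne_base h1 h2
  -- the family
  have h1 := EF.algInd_Uc (z0 := fun j => b (j + 1)) (fun j => hbalg _)
  let e : {p : ℕ × ℂ // p ∈ T} →
      {p : ℂ × ℕ // IsAlgebraic ℚ p.1 ∧ p.1 ≠ 0 ∧ p.1 ≠ b (p.2 + 1)} := fun p =>
    ⟨(p.1.2, p.1.1 - 1), (hP _ (hmem _ p.2).1).2, hne _ p.2, by
        have h3 := (hP _ (hmem _ p.2).1).1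
        have h4 : p.1.1 - 1 + 1 = p.1.1 := Nat.sub_add_cancel h3
        simp only
        rw [h4]
        exact (hmem _ p.2).2⟩
  have he : Function.Injective e := by
    rintro ⟨⟨k, z⟩, hp⟩ ⟨⟨l, w⟩, hq⟩ h
    rw [Subtype.mk.injEq, Prod.mk.injEq] at h
    have h3 := (hP _ (hmem _ hp).1).1
    have h4 := (hP _ (hmem _ hq).1).1
    simp only at h h3 h4
    rw [Subtype.mk.injEq, Prod.mk.injEq]
    exact ⟨by omega, h.1⟩
  have h2 : AlgebraicIndependent M (fun p : {p : ℕ × ℂ // p ∈ T} =>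
      EF.Uc ((e p).1.2 + 1) (b ((e p).1.2 + 1)) - EF.Uc ((e p).1.2 + 1) (e p).1.1) :=
    h1.comp e he
  -- membership
  have key : ∀ k w, (k, w) ∈ P → (cst k : ℂ) - EF.Uc k w ∈ N := by
    intro k w hw
    have hk := (hP _ hw).1
    have e1 : (cst k : ℂ) - EF.Uc k w = Complex.exp (-w) * F k w := by
      rw [F_eq hk, ← mul_assoc, ← Complex.exp_add, neg_add_cancel, Complex.exp_zero, one_mul]
    rw [e1]
    refine N.mul_mem ?_ ?_
    · have := (algebraMap M N ⟨Complex.exp (-w), exp_mem (hP _ hw).2.neg⟩).2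
      exact this
    · exact IntermediateField.subset_adjoin _ _ ⟨(k, w), hw, rfl⟩
  set N1 := IntermediateField.adjoin N ({(Real.pi : ℂ) ^ 2} : Set ℂ) with hN1
  have hNN1 : ∀ x ∈ N, x ∈ N1 := fun x hx => N1.algebraMap_mem (⟨x, hx⟩ : N)
  have hpi : (Real.pi : ℂ) ^ 2 ∈ N1 := IntermediateField.mem_adjoin_simple_self N _
  have hin : ∀ p : {p : ℕ × ℂ // p ∈ T},
      EF.Uc ((e p).1.2 + 1) (b ((e p).1.2 + 1)) - EF.Uc ((e p).1.2 + 1) (e p).1.1 ∈ N1 := by
    rintro ⟨⟨k, z⟩, hp⟩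
    have hk := (hP _ (hmem _ hp).1).1
    simp only at hk
    have h3 : k - 1 + 1 = k := Nat.sub_add_cancel hk
    change EF.Uc (k - 1 + 1) (b (k - 1 + 1)) - EF.Uc (k - 1 + 1) z ∈ N1
    rw [h3]
    have hPz := (hmem _ hp).1
    by_cases h : Even k
    · rw [hbe h, Uc_zero]
      obtain ⟨q, j, -, -, hq⟩ := cst_even hk h
      have hc : (cst k : ℂ) ∈ N1 := by
        rw [hq]
        refine N1.mul_mem ?_ (pow_mem hpi j)
        exact SubfieldClass.ratCast_mem N1 q
      have e2 : 0 - EF.Uc k z = ((cst k : ℂ) - EF.Uc k z) - (cst k : ℂ) := by ring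
      rw [e2]
      exact N1.sub_mem (hNN1 _ (key k z hPz)) hc
    · rw [hbo h]
      have hPb := base_mem hPz
      have e2 : EF.Uc k (base P k) - EF.Uc k z =
          ((cst k : ℂ) - EF.Uc k z) - ((cst k : ℂ) - EF.Uc k (base P k)) := by ring
      rw [e2]
      exact N1.sub_mem (hNN1 _ (key k z hPz)) (hNN1 _ (key k _ hPb))
  have hmain := card_le_of_simple N ((Real.pi : ℂ) ^ 2) _ h2 hin
  rw [Cardinal.mk_coe_finset] at hmain
  -- counting
  have hsplit := Finset.card_filter_add_card_filter_not (s := P) (fun p => p.2 ≠ b p.1)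
  rw [← hT] at hsplit
  have hclass : ∀ p ∈ P.filter (fun p => ¬ p.2 ≠ b p.1), ∀ q ∈ P.filter (fun p => ¬ p.2 ≠ b p.1),
      (if Even p.1 then 0 else p.1) = (if Even q.1 then 0 else q.1) → p = q := by
    intro p hp q hq hpq
    rw [Finset.mem_filter, not_not] at hp hq
    have hp1 := (hP _ hp.1).1
    have hq1 := (hP _ hq.1).1
    by_cases h3 : Even p.1 <;> by_cases h4 : Even q.1
    · exact hE p hp.1 q hq.1 h3 h4 (by rw [hp.2, hbe h3]) (by rw [hq.2, hbe h4])
    · rw [if_pos h3, if_neg h4] at hpq; omega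
    · rw [if_neg h3, if_pos h4] at hpq; omega
    · rw [if_neg h3, if_neg h4] at hpq
      refine Prod.ext hpq ?_
      rw [hp.2, hq.2, hpq]
  by_cases h0 : ∃ p ∈ P, Even p.1 ∧ p.2 = 0
  · -- `π²` is algebraic over `N`
    obtain ⟨⟨k, z⟩, hp, hk2, hz⟩ := h0
    simp only at hk2 hz
    subst hz
    have hk := (hP _ hp).1
    obtain ⟨q, j, hq0, hj, hq⟩ := cst_even hk hk2
    have h3 : (cst k : ℂ) ∈ N := by
      have h4 := key k 0 hp
      rwa [Uc_zero, sub_zero] at h4
    have h5 : ((Real.pi : ℂ) ^ 2) ^ j ∈ N := by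
      have h6 : ((Real.pi : ℂ) ^ 2) ^ j = (cst k : ℂ) / (q : ℂ) := by
        rw [hq, mul_div_cancel_left₀]
        exact_mod_cast hq0
      rw [h6]
      refine N.div_mem h3 ?_
      exact SubfieldClass.ratCast_mem N q
    have h7 : IsAlgebraic N ((Real.pi : ℂ) ^ 2) := by
      refine IsAlgebraic.of_pow (by omega : 0 < j) ?_
      exact isAlgebraic_algebraMap (⟨_, h5⟩ : N)
    have h8 : Algebra.IsAlgebraic N N1 :=
      IntermediateField.isAlgebraic_adjoin_simple h7.isIntegral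
    have h8' : Algebra.trdeg N N1 = 0 := trdeg_eq_zero
    rw [← hN1, h8', add_zero] at hmain
    refine le_trans ?_ hmain
    have h9 : (P.filter fun p => ¬ p.2 ≠ b p.1).card ≤ Cl.card := by
      refine Finset.card_le_card_of_injOn (fun p => if Even p.1 then 0 else p.1) ?_ ?_
      · intro p hp
        rw [Finset.mem_coe, Finset.mem_filter] at hp
        exact Finset.mem_coe.2 (Finset.mem_image_of_mem _ hp.1)
      · intro p hp q hq hpq
        exact hclass p hp q hq hpq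
    have h10 : P.card - Cl.card ≤ T.card := by omega
    exact_mod_cast h10
  · have h9 : (P.filter fun p => ¬ p.2 ≠ b p.1).card ≤ (Cl.erase 0).card := by
      refine Finset.card_le_card_of_injOn (fun p => if Even p.1 then 0 else p.1) ?_ ?_
      · intro p hp
        rw [Finset.mem_coe, Finset.mem_filter, not_not] at hp
        have h3 : ¬ Even p.1 := fun h => h0 ⟨p, hp.1, h, by rw [hp.2, hbe h]⟩
        have h4 := (hP _ hp.1).1
        rw [Finset.mem_coe, Finset.mem_erase]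
        refine ⟨?_, Finset.mem_image_of_mem _ hp.1⟩
        simp only
        rw [if_neg h3]
        omega
      · intro p hp q hq hpq
        exact hclass p hp q hq hpq
    obtain ⟨p0, hp0, hp0e⟩ := hex
    have h10 : 0 ∈ Cl := by
      rw [hCl, Finset.mem_image]
      exact ⟨p0, hp0, if_pos hp0e⟩
    rw [Finset.card_erase_of_mem h10] at h9
    have h11 : 1 ≤ Cl.card := Finset.card_pos.2 ⟨0, h10⟩
    have h12 : P.card - Cl.card ≤ T.card - 1 := by omega
    have h13 : (T.card : Cardinal) ≤ Algebra.trdeg M N + 1 :=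
      hmain.trans (by gcongr; exact trdeg_simple_le _)
    have h14 : ((T.card - 1 : ℕ) : Cardinal) ≤ Algebra.trdeg M N := by
      rcases lt_or_ge (Algebra.trdeg M N) Cardinal.aleph0 with h | h
      · obtain ⟨d, hd⟩ := Cardinal.lt_aleph0.1 h
        rw [hd] at h13 ⊢
        have h15 : T.card ≤ d + 1 := by exact_mod_cast h13
        have h16 : T.card - 1 ≤ d := by omega
        exact_mod_cast h16
      · exact (Cardinal.natCast_lt_aleph0).le.trans h
    refine le_trans ?_ h14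
    exact_mod_cast h12

/-- **The transcendence degree.** -/
theorem degree_class (P : Finset (ℕ × ℂ)) (hP : ∀ p ∈ P, 1 ≤ p.1 ∧ IsAlgebraic ℚ p.2)
    (hE : ∀ p ∈ P, ∀ q ∈ P, Even p.1 → Even q.1 → p.2 = 0 → q.2 = 0 → p = q) :
    ((P.card - (P.image fun p => if Even p.1 then 0 else p.1).card : ℕ) : Cardinal) ≤
      Algebra.trdeg M (IntermediateField.adjoin M ((fun p : ℕ × ℂ => F p.1 p.2) '' P)) := by
  classical
  by_cases hex : ∃ p ∈ P, Even p.1
  · exact degree_even P hP hE hex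
  · have h1 : (P.image fun p => if Even p.1 then 0 else p.1) = P.image Prod.fst := by
      refine Finset.image_congr ?_
      intro p hp
      exact if_neg fun h => hex ⟨p, hp, h⟩
    rw [h1]
    exact degree P hP

/-- **Algebraic independence.** -/
theorem independent : AlgebraicIndependent M
    (fun p : {p : ℕ × ℂ // 1 ≤ p.1 ∧ IsAlgebraic ℚ p.2 ∧ p.2 ≠ 0} =>
      Complex.exp (-p.1.2) * F p.1.1 p.1.2 - F p.1.1 0) := by
  have h1 := EF.algInd_Uc (z0 := fun _ => 0) (fun _ => isAlgebraic_zero)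
  let e : {p : ℕ × ℂ // 1 ≤ p.1 ∧ IsAlgebraic ℚ p.2 ∧ p.2 ≠ 0} →
      {p : ℂ × ℕ // IsAlgebraic ℚ p.1 ∧ p.1 ≠ 0 ∧ p.1 ≠ 0} := fun p =>
    ⟨(p.1.2, p.1.1 - 1), p.2.2.1, p.2.2.2, p.2.2.2⟩
  have he : Function.Injective e := by
    rintro ⟨⟨k, z⟩, hp⟩ ⟨⟨l, w⟩, hq⟩ h
    rw [Subtype.mk.injEq, Prod.mk.injEq] at h
    have h3 := hp.1
    have h4 := hq.1
    simp only at h h3 h4
    rw [Subtype.mk.injEq, Prod.mk.injEq]
    exact ⟨by omega, h.1⟩
  have h2 : AlgebraicIndependent M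
      (fun p : {p : ℕ × ℂ // 1 ≤ p.1 ∧ IsAlgebraic ℚ p.2 ∧ p.2 ≠ 0} =>
        EF.Uc ((e p).1.2 + 1) 0 - EF.Uc ((e p).1.2 + 1) (e p).1.1) := h1.comp e he
  have h3 : (fun p : {p : ℕ × ℂ // 1 ≤ p.1 ∧ IsAlgebraic ℚ p.2 ∧ p.2 ≠ 0} =>
      Complex.exp (-p.1.2) * F p.1.1 p.1.2 - F p.1.1 0) =
      fun p => EF.Uc ((e p).1.2 + 1) 0 - EF.Uc ((e p).1.2 + 1) (e p).1.1 := by
    funext p
    obtain ⟨⟨k, z⟩, hp⟩ := p
    have hk := hp.1
    simp only at hk
    have h4 : k - 1 + 1 = k := Nat.sub_add_cancel hk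
    change Complex.exp (-z) * F k z - F k 0 = EF.Uc (k - 1 + 1) 0 - EF.Uc (k - 1 + 1) z
    rw [h4, F_eq hk, F_eq hk, Uc_zero, ← mul_assoc, ← Complex.exp_add, neg_add_cancel,
      Complex.exp_zero]
    ring
  rw [h3]
  exact h2

/-- **Main theorem.** -/
theorem result :
    (F 1 0 = Real.eulerMascheroniConstant ∧ F 2 0 = (Real.pi : ℂ) ^ 2 / 6 ∧
      F 3 0 = ((∑' n : ℕ, 1 / ((n : ℝ) + 1) ^ 3 : ℝ) : ℂ)) ∧
    AlgebraicIndependent M (fun p : {p : ℕ × ℂ // 1 ≤ p.1 ∧ IsAlgebraic ℚ p.2 ∧ p.2 ≠ 0} =>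
      Complex.exp (-p.1.2) * F p.1.1 p.1.2 - F p.1.1 0) := by
  refine ⟨⟨?_, ?_, ?_⟩, independent⟩
  · rw [F_zero, tail, if_pos rfl]
    simp
  · rw [F_zero, tail, if_neg (by norm_num)]
    have h := hasSum_zeta_two.tsum_eq
    rw [(Real.summable_one_div_nat_pow.2 (by norm_num : 1 < 2)).tsum_eq_zero_add] at h
    have h2 : ∑' i : ℕ, 1 / (((0 : ℕ) : ℝ) + i + 1) ^ 2 = Real.pi ^ 2 / 6 := by
      rw [← h]
      simp
    rw [h2]
    push_cast
    rfl
  · rw [F_zero, tail, if_neg (by norm_num)]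
    congr 1
    refine tsum_congr fun n => ?_
    simp

end Pool.Agent.Results.MP_e48a95_nt.ExpTails
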