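import Mathlib
import Pool.Agent.GD71.Final
import Pool.Agent.GD71.Trans

/-!
# Derivatives of the Gamma function at positive integers, and the constants `γ`, `π`, `ζ(3)`

Let `k ≥ 2`.  In the list `γ, Γ⁽ᵏ⁾(1), Γ⁽ᵏ⁾(2), Γ⁽ᵏ⁾(3), …` (for `k = 3, 4` also with `ζ(3)` and `ζ(3)/π³`) any
`m + 1` members, `m = ⌊(k+1)/2⌋`, generate a field over which `γ, π, ζ(2), ζ(3), …, ζ(k)` are all algebraic.
In particular at most `m` members of the list are algebraic.

Proof. Put `gᵢ = Γ⁽ⁱ⁾(1)/i!`.  Then `Γ⁽ᵏ⁾(n+1)/k! = ∑ⱼ E(n,j) g_{k-j}`, where `E(n,j)` is the coefficient of `Xʲ` in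
`(X+1)⋯(X+n)`, and the determinants of the `E(nᵢ,j)`, `0 ≤ i, j ≤ r`, are positive.  If one of `π, g₁, …, g_k` is
not algebraic over the field `K` of the members, a valuation ring of `ℝ` contains `K` and not all of them; scale them
by powers (weights `1, 1, …, k`) of an element of the maximal ideal so that they lie in the ring, not all in the maximal
ideal, and let `p, hᵢ` be the residues.  Then `hᵢ = 0` for the `m + 1` (or `m`) largest `i`, because the combinations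
`g_{k-l} + (rational combination of gᵢ, i < k - m)` lie in `K`.  The reflection formula
`Γ(1+t)Γ(1-t) = πt/sin(πt)` says that `P(X)P(-X)`, `P = ∑ hᵢ Xⁱ`, is a truncation of `pX/sin(pX)`, whose coefficients are
positive.  If the top coefficient of `P` vanishes this gives `p = 0` and `P = 1`, a contradiction.  If `γ` is one of the
members, `h₁ = 0` instead; then a `2`-adic valuation of the residue field gives a contradiction, since
`2x/sin(2x) ≡ 1 mod 2`.
-/

namespace Pool.Agent.Results.MP_e48a95_nt.GammaDerivatives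

/-- `ζ(j)`, as a real series. -/
noncomputable def zeta (j : ℕ) : ℝ := ∑' i : ℕ, 1 / ((i : ℝ) + 1) ^ j

/-- The sequence `γ, ζ(3), ζ(3)/π³, Γ⁽ᵏ⁾(1), Γ⁽ᵏ⁾(2), Γ⁽ᵏ⁾(3), …`. -/
noncomputable def number (k : ℕ) : ℕ → ℝ
  | 0 => Real.eulerMascheroniConstant
  | 1 => zeta 3
  | 2 => zeta 3 / Real.pi ^ 3
  | n + 3 => iteratedDeriv k Real.Gamma ((n : ℝ) + 1)

lemma number_eq (k : ℕ) : ∀ n, number k n = GD71.numberX k n
  | 0 => rfl
  | 1 => rfl
  | 2 => rfl
  | _ + 3 => rfl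

/-- For `k ≥ 2`, more than `(k + 1) / 2` members of the list `γ, Γ⁽ᵏ⁾(1), Γ⁽ᵏ⁾(2), …` (for `k = 3, 4` also with `ζ(3)`,
`ζ(3)/π³`) generate a field over which `γ`, `π`, `ζ(2)`, `ζ(3)`, …, `ζ(k)` are algebraic, and one of these members is
transcendental. -/
theorem result (k : ℕ) (hk : 2 ≤ k) (s : Finset ℕ) (hs : (k + 1) / 2 < s.card)
    (h : k = 3 ∨ k = 4 ∨ (1 ∉ s ∧ 2 ∉ s)) :
    (∀ x : ℝ, (x = Real.eulerMascheroniConstant ∨ x = Real.pi ∨ ∃ j, 2 ≤ j ∧ j ≤ k ∧ x = zeta j) →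
      IsAlgebraic (IntermediateField.adjoin ℚ (number k '' (s : Set ℕ))) x) ∧
    ∃ i ∈ s, Transcendental ℚ (number k i) := by
  have hn : number k = GD71.numberX k := funext (number_eq k)
  have key : ∀ x : ℝ, (x = Real.eulerMascheroniConstant ∨ x = Real.pi ∨
      ∃ j, 2 ≤ j ∧ j ≤ k ∧ x = zeta j) →
      IsAlgebraic (IntermediateField.adjoin ℚ (number k '' (s : Set ℕ))) x := by
    intro x hx
    rw [hn]
    exact GD71.final k hk s hs h x hx
  refine ⟨key, ?_⟩
  obtain ⟨x, ⟨i, hi, rfl⟩, hx⟩ := GD71.exists_transcendental (key Real.pi (Or.inr (Or.inl rfl)))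
  exact ⟨i, hi, hx⟩

end Pool.Agent.Results.MP_e48a95_nt.GammaDerivatives
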