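import Pool.Agent.Z23.Final

/-!
# Linear independence of `1`, `π ^ 2`, `ζ(3)` over the rationals, with an explicit measure

For all integers `x, y, z`, not all zero,
`|x + y π ^ 2 + z ζ(3)| ≥ c (max (|y|, |z|) + 1) ^ (-21.32)` with a constant `c > 0`.  As the right
hand side is positive, `1`, `ζ(2) = π ^ 2 / 6` and `ζ(3)` are linearly independent over the
rationals (also stated as `Pool.Agent.Z23.z23_riemannZeta`), and `ζ(3) / π ^ 2` is irrational.
-/

namespace Pool.Agent.Results.MP_e48a95_nt.LinearIndependence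

/-- the linear independence measure of `1`, `π ^ 2`, `ζ(3)` -/
theorem result : ∃ c : ℝ, 0 < c ∧ ∀ x y z : ℤ, ¬ (x = 0 ∧ y = 0 ∧ z = 0) →
    c * (max |(y : ℝ)| |(z : ℝ)| + 1) ^ (-21.32 : ℝ) ≤
      |(x : ℝ) + (y : ℝ) * Real.pi ^ 2 + (z : ℝ) * ∑' n : ℕ, 1 / ((n : ℝ) + 1) ^ 3| :=
  Pool.Agent.Z23.z23_measure_pi

end Pool.Agent.Results.MP_e48a95_nt.LinearIndependence
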