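import Mathlib
import Pool.Agent.EF.LInd
import Pool.Agent.Lib.IncGamma

/-!
# Algebraically independent numbers of the form `γ + integral`, `γ² - integral`,
`γ³ + 2 ζ(3) + integral`

For a rational number `0 < r < 1/2` let
`κ_r(x) = exp (-x cos πr) cos (x sin πr) - (1 - 6 r²) exp (-x)`,
`J_j(r) = ∫_1^∞ κ_r(x) (log x)^j dx / x` and
`D_j(r) = (d/ds)^(j+1) [(cos (π r s) - (1 - 6 r²)) Γ(1 + s)]_{s = 0} / (j + 1)`. The numbers
`J_j(r) - D_j(r)`, for all `j ≥ 0` and all `r` together, are algebraically independent over the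
field `M` generated by all exponentials of algebraic numbers, and `D_0(r) = -6 r² γ`,
`D_1(r) = 3 r² γ²`, `D_2(r) = -2 r² (γ³ + 2 ζ(3))`.
-/

open MeasureTheory Set Topology

namespace Pool.Agent.Results.MP_e48a95_nt.TwistedIndependence

/-- The kernel `exp (-x cos πr) cos (x sin πr) - (1 - 6 r²) exp (-x)`. -/
noncomputable def kernel (r : ℚ) (x : ℝ) : ℝ :=
  Real.exp (-(x * Real.cos (Real.pi * r))) * Real.cos (x * Real.sin (Real.pi * r)) -
    (1 - 6 * (r : ℝ) ^ 2) * Real.exp (-x)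

/-- `J j r = ∫_1^∞ kernel r x (log x)^j dx / x`. -/
noncomputable def J (j : ℕ) (r : ℚ) : ℝ :=
  ∫ x in Ioi (1 : ℝ), kernel r x * Real.log x ^ j / x

/-- The field generated over `ℚ` by all exponentials of algebraic numbers. -/
noncomputable def M : IntermediateField ℚ ℂ :=
  IntermediateField.adjoin ℚ {x : ℂ | ∃ β : ℂ, IsAlgebraic ℚ β ∧ x = Complex.exp β}

/-- `D j r = (d/ds)^(j+1) [(cos (π r s) - (1 - 6 r²)) Γ(1 + s)]_{s = 0} / (j + 1)`. -/
noncomputable def D (j : ℕ) (r : ℚ) : ℝ :=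
  iteratedDeriv (j + 1) (fun s : ℝ =>
    (Real.cos (Real.pi * r * s) - (1 - 6 * (r : ℝ) ^ 2)) * Real.Gamma (1 + s)) 0 / (j + 1)

/-- `ζ(3)`. -/
noncomputable def zetaThree : ℝ := ∑' n : ℕ, 1 / ((n : ℝ) + 1) ^ 3

/-! ### The roots of unity -/

/-- `exp (i π r)`. -/
noncomputable def om (r : ℚ) : ℂ := Complex.exp (((Real.pi * r : ℝ) : ℂ) * Complex.I)

lemma om_pow (r : ℚ) : om r ^ (2 * r.den) = 1 := by
  rw [om, ← Complex.exp_nat_mul, Complex.exp_eq_one_iff]
  refine ⟨r.num, ?_⟩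
  have h : ((r.den : ℕ) : ℂ) * (r : ℂ) = (r.num : ℂ) := by
    have := Rat.den_mul_eq_num r
    exact_mod_cast this
  push_cast
  linear_combination (2 * Real.pi * Complex.I) * h

lemma om_alg (r : ℚ) : IsAlgebraic ℚ (om r) := by
  refine IsAlgebraic.of_pow (n := 2 * r.den) (by have := r.pos; omega) ?_
  rw [om_pow]
  exact isAlgebraic_one

lemma om_neg (r : ℚ) : om (-r) = Complex.exp (-(((Real.pi * r : ℝ) : ℂ) * Complex.I)) := by
  rw [om]
  congr 1
  push_cast
  ring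

lemma om_re (r : ℚ) : (om r).re = Real.cos (Real.pi * r) := by
  rw [om, Complex.exp_ofReal_mul_I_re]

lemma om_im (r : ℚ) : (om r).im = Real.sin (Real.pi * r) := by
  rw [om, Complex.exp_ofReal_mul_I_im]

lemma om_zero : om 0 = 1 := by simp [om]

lemma om_ne_zero (r : ℚ) : om r ≠ 0 := Complex.exp_ne_zero _

lemma lower {r : ℚ} (h1 : -(1 / 2) < r) : -(1 / 2 : ℝ) < r := by
  have := (Rat.cast_lt (K := ℝ)).2 h1
  push_cast at this
  exact this

lemma upper {r : ℚ} (h1 : r < 1 / 2) : (r : ℝ) < 1 / 2 := by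
  have := (Rat.cast_lt (K := ℝ)).2 h1
  push_cast at this
  exact this

lemma cos_pos {r : ℚ} (h1 : -(1 / 2) < r) (h2 : r < 1 / 2) : 0 < Real.cos (Real.pi * r) := by
  have h1' := lower h1
  have h2' := upper h2
  apply Real.cos_pos_of_mem_Ioo
  constructor <;> nlinarith [Real.pi_pos]

lemma om_re_pos {r : ℚ} (h1 : -(1 / 2) < r) (h2 : r < 1 / 2) : 0 < (om r).re := by
  rw [om_re]; exact cos_pos h1 h2

lemma log_om {r : ℚ} (h1 : -(1 / 2) < r) (h2 : r < 1 / 2) :
    Complex.log (om r) = ((Real.pi * r : ℝ) : ℂ) * Complex.I := by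
  have h1' := lower h1
  have h2' := upper h2
  have hpi := Real.pi_pos
  have him : (((Real.pi * r : ℝ) : ℂ) * Complex.I).im = Real.pi * r := by simp
  rw [om, Complex.log_exp]
  · rw [him]; nlinarith
  · rw [him]; nlinarith

/-! ### The integrals -/

lemma kernel_eq (r : ℚ) (x : ℝ) : (kernel r x : ℂ) =
    (Complex.exp (-(om r * x)) + Complex.exp (-(om (-r) * x))) / 2 -
      (1 - 6 * (r : ℂ) ^ 2) * Complex.exp (-(om 0 * x)) := by
  have key : ∀ s : ℚ, Complex.exp (-(om s * x)) =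
      ((Real.exp (-(x * Real.cos (Real.pi * s))) : ℝ) : ℂ) *
        (((Real.cos (x * Real.sin (Real.pi * s)) : ℝ) : ℂ) -
          ((Real.sin (x * Real.sin (Real.pi * s)) : ℝ) : ℂ) * Complex.I) := by
    intro s
    have e1 : -(om s * x) = ((-(x * Real.cos (Real.pi * s)) : ℝ) : ℂ) +
        ((-(x * Real.sin (Real.pi * s)) : ℝ) : ℂ) * Complex.I := by
      have : om s = ((om s).re : ℂ) + ((om s).im : ℂ) * Complex.I := (Complex.re_add_im _).symm
      rw [this, om_re, om_im]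
      push_cast
      ring
    rw [e1, Complex.exp_add, ← Complex.ofReal_exp, Complex.exp_mul_I, ← Complex.ofReal_cos,
      ← Complex.ofReal_sin, Real.cos_neg, Real.sin_neg]
    push_cast
    ring
  rw [key r, key (-r), om_zero, one_mul, kernel]
  have c1 : Real.pi * ((-r : ℚ) : ℝ) = -(Real.pi * r) := by push_cast; ring
  rw [c1, Real.cos_neg, Real.sin_neg, mul_neg, Real.cos_neg, Real.sin_neg]
  push_cast
  ring

open Lib.IncGamma in
lemma J_eq (j : ℕ) {r : ℚ} (h0 : 0 < r) (h1 : r < 1 / 2) : (J j r : ℂ) =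
    (T j (om r) + T j (om (-r))) / 2 - (1 - 6 * (r : ℂ) ^ 2) * T j (om 0) := by
  have i1 := integrableOn_T j (om_re_pos (r := r) (by linarith) h1)
  have i2 := integrableOn_T j (om_re_pos (r := -r) (by linarith) (by linarith))
  have i3 := integrableOn_T j (om_re_pos (r := 0) (by norm_num) (by norm_num))
  have e : ∀ x : ℝ, ((kernel r x * Real.log x ^ j / x : ℝ) : ℂ) =
      (1 / 2 : ℂ) * (Complex.exp (-(om r * x)) * (Real.log x : ℂ) ^ j / x) +
      (1 / 2 : ℂ) * (Complex.exp (-(om (-r) * x)) * (Real.log x : ℂ) ^ j / x) -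
      (1 - 6 * (r : ℂ) ^ 2) * (Complex.exp (-(om 0 * x)) * (Real.log x : ℂ) ^ j / x) := by
    intro x
    push_cast
    rw [kernel_eq]
    ring
  have i4 : Integrable (fun x : ℝ =>
      (1 / 2 : ℂ) * (Complex.exp (-(om r * x)) * (Real.log x : ℂ) ^ j / x) +
      (1 / 2 : ℂ) * (Complex.exp (-(om (-r) * x)) * (Real.log x : ℂ) ^ j / x))
      (volume.restrict (Ioi 1)) :=
    (i1.const_mul (1 / 2 : ℂ)).add (i2.const_mul (1 / 2 : ℂ))
  rw [J, ← integral_complex_ofReal, integral_congr_ae (Filter.Eventually.of_forall e),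
    integral_sub i4 (i3.const_mul _), integral_add (i1.const_mul _) (i2.const_mul _),
    integral_const_mul, integral_const_mul, integral_const_mul]
  rw [T, T, T]
  ring

lemma integrableOn_J (j : ℕ) {r : ℚ} (h0 : 0 < r) (h1 : r < 1 / 2) :
    IntegrableOn (fun x : ℝ => kernel r x * Real.log x ^ j / x) (Ioi 1) := by
  have i1 := Lib.IncGamma.integrableOn_T j (om_re_pos (r := r) (by linarith) h1)
  have i2 := Lib.IncGamma.integrableOn_T j (om_re_pos (r := -r) (by linarith) (by linarith))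
  have i3 := Lib.IncGamma.integrableOn_T j (om_re_pos (r := 0) (by norm_num) (by norm_num))
  have i4 := ((i1.const_mul (1 / 2 : ℂ)).add (i2.const_mul (1 / 2 : ℂ))).sub
    (i3.const_mul (1 - 6 * (r : ℂ) ^ 2))
  have i5 := i4.re
  refine i5.congr (Filter.Eventually.of_forall fun x => ?_)
  have e : ((kernel r x * Real.log x ^ j / x : ℝ) : ℂ) =
      (1 / 2 : ℂ) * (Complex.exp (-(om r * x)) * (Real.log x : ℂ) ^ j / x) +
      (1 / 2 : ℂ) * (Complex.exp (-(om (-r) * x)) * (Real.log x : ℂ) ^ j / x) -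
      (1 - 6 * (r : ℂ) ^ 2) * (Complex.exp (-(om 0 * x)) * (Real.log x : ℂ) ^ j / x) := by
    push_cast
    rw [kernel_eq]
    ring
  simp only [Pi.add_apply, Pi.sub_apply]
  rw [← e]
  exact Complex.ofReal_re _

/-- The part given by an element of the algebra of E-functions. -/
noncomputable def Y (j : ℕ) (r : ℚ) : ℂ :=
  Lib.IncGamma.Lc (j + 1) (-om r) + Lib.IncGamma.Lc (j + 1) (-om (-r)) -
    2 * (1 - 6 * (r : ℂ) ^ 2) * Lib.IncGamma.Lc (j + 1) (-om 0)


/-! ### The derivatives at `0` -/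

lemma chain_ofReal {F : ℕ → ℝ → ℂ} {g : ℝ → ℝ}
    (hF : ∀ k s, -1 < s → HasDerivAt (F k) (F (k + 1) s) s)
    (h0 : ∀ s, -1 < s → F 0 s = (g s : ℂ)) (k : ℕ) :
    ∀ s, -1 < s → F k s = ((iteratedDeriv k g s : ℝ) : ℂ) := by
  induction k with
  | zero => intro s hs; rw [iteratedDeriv_zero, h0 s hs]
  | succ k ih =>
    intro s hs
    have h1 := hF k s hs
    have h2 : F k =ᶠ[𝓝 s] fun x => ((iteratedDeriv k g x : ℝ) : ℂ) := by
      filter_upwards [Ioi_mem_nhds hs] with x hx using ih x hx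
    have h3 := h1.congr_of_eventuallyEq h2.symm
    have h4 : HasDerivAt (iteratedDeriv k g) (F (k + 1) s).re s := by
      have := Complex.reCLM.hasFDerivAt.comp_hasDerivAt s h3
      exact this
    have h5 : HasDerivAt (fun _ : ℝ => (0 : ℝ)) (F (k + 1) s).im s := by
      have := Complex.imCLM.hasFDerivAt.comp_hasDerivAt s h3
      exact this
    have h6 : (F (k + 1) s).im = 0 := h5.unique (hasDerivAt_const s (0 : ℝ))
    rw [iteratedDeriv_succ, h4.deriv]
    apply Complex.ext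
    · simp
    · simp [h6]

open Lib.IncGamma in
/-- The combination of Mellin transforms. -/
noncomputable def F (r : ℚ) (k : ℕ) (s : ℝ) : ℂ :=
  (1 / 2 : ℂ) * (om r * G (om r) k (1 + s)) + (1 / 2 : ℂ) * (om (-r) * G (om (-r)) k (1 + s)) -
    (1 - 6 * (r : ℂ) ^ 2) * (om 0 * G (om 0) k (1 + s))

open Lib.IncGamma in
lemma hasDerivAt_F {r : ℚ} (h0 : 0 < r) (h1 : r < 1 / 2) (k : ℕ) {s : ℝ} (hs : -1 < s) :
    HasDerivAt (F r k) (F r (k + 1) s) s := by
  have hg : ∀ q : ℚ, 0 < (om q).re →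
      HasDerivAt (fun s : ℝ => G (om q) k (1 + s)) (G (om q) (k + 1) (1 + s)) s := by
    intro q hq
    have e1 := hasDerivAt_G hq k (x := 1 + s) (by linarith)
    have e2 : HasDerivAt (fun s : ℝ => 1 + s) 1 s := (hasDerivAt_id s).const_add 1
    have e3 := HasDerivAt.scomp s e1 e2
    rw [one_smul] at e3
    exact e3
  have g1 := hg r (om_re_pos (by linarith) h1)
  have g2 := hg (-r) (om_re_pos (by linarith) (by linarith))
  have g3 := hg 0 (om_re_pos (by norm_num) (by norm_num))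
  exact (((g1.const_mul (om r)).const_mul (1 / 2 : ℂ)).add
    ((g2.const_mul (om (-r))).const_mul (1 / 2 : ℂ))).sub
    ((g3.const_mul (om 0)).const_mul (1 - 6 * (r : ℂ) ^ 2))

open Lib.IncGamma Lib.GammaMoments in
lemma om_G {q : ℚ} (h1 : -(1 / 2) < q) (h2 : q < 1 / 2) {s : ℝ} (hs : -1 < s) :
    om q * G (om q) 0 (1 + s) =
      Complex.exp (-((Real.pi * q * s : ℝ) : ℂ) * Complex.I) * (Real.Gamma (1 + s) : ℂ) := by
  have hx : 0 < 1 + s := by linarith
  rw [G_zero (om_re_pos h1 h2) hx, M_zero hx, log_om h1 h2, ← mul_assoc]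
  congr 1
  rw [om, ← Complex.exp_add]
  congr 1
  push_cast
  ring

lemma F_zero {r : ℚ} (h0 : 0 < r) (h1 : r < 1 / 2) {s : ℝ} (hs : -1 < s) :
    F r 0 s = (((Real.cos (Real.pi * r * s) - (1 - 6 * (r : ℝ) ^ 2)) *
      Real.Gamma (1 + s) : ℝ) : ℂ) := by
  rw [F, om_G (by linarith) h1 hs, om_G (by linarith) (by linarith) hs,
    om_G (by norm_num) (by norm_num) hs]
  have e : ((Real.cos (Real.pi * r * s) : ℝ) : ℂ) =
      (Complex.exp (((Real.pi * r * s : ℝ) : ℂ) * Complex.I) +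
        Complex.exp (-((Real.pi * r * s : ℝ) : ℂ) * Complex.I)) / 2 := by
    rw [Complex.ofReal_cos, Complex.cos]
  have e2 : -((Real.pi * ((-r : ℚ) : ℝ) * s : ℝ) : ℂ) * Complex.I =
      ((Real.pi * r * s : ℝ) : ℂ) * Complex.I := by
    push_cast
    ring
  have e3 : -((Real.pi * ((0 : ℚ) : ℝ) * s : ℝ) : ℂ) * Complex.I = 0 := by
    push_cast
    ring
  rw [e2, e3, Complex.exp_zero]
  have e4 : (((Real.cos (Real.pi * r * s) - (1 - 6 * (r : ℝ) ^ 2)) *
      Real.Gamma (1 + s) : ℝ) : ℂ) = (((Real.cos (Real.pi * r * s) : ℝ) : ℂ) -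
        (1 - 6 * (r : ℂ) ^ 2)) * ((Real.Gamma (1 + s) : ℝ) : ℂ) := by
    push_cast
    ring
  rw [e4, e]
  ring

open Lib.IncGamma in
lemma J_sub_D (j : ℕ) {r : ℚ} (h0 : 0 < r) (h1 : r < 1 / 2) :
    ((J j r - D j r : ℝ) : ℂ) = ((-1) ^ (j + 1) * (j.factorial : ℂ) / 2) * Y j r := by
  have a1 := om_re_pos (r := r) (by linarith) h1
  have a2 := om_re_pos (r := -r) (by linarith) (by linarith)
  have a3 := om_re_pos (r := 0) (by norm_num) (by norm_num)
  have hF := chain_ofReal (F := F r) (fun k s hs => hasDerivAt_F h0 h1 k hs)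
    (fun s hs => F_zero h0 h1 hs) (j + 1) 0 (by norm_num)
  have hj : ((j : ℂ) + 1) ≠ 0 := by exact_mod_cast j.succ_ne_zero
  have hD : ((j : ℂ) + 1) * (D j r : ℂ) = F r (j + 1) 0 := by
    rw [hF, D]
    push_cast
    field_simp
  have hFN : F r (j + 1) 0 = (1 / 2 : ℂ) * (om r * N (j + 1) (om r)) +
      (1 / 2 : ℂ) * (om (-r) * N (j + 1) (om (-r))) -
      (1 - 6 * (r : ℂ) ^ 2) * (om 0 * N (j + 1) (om 0)) := by
    rw [F, add_zero, G_at_one, G_at_one, G_at_one]
  have t1 := T_split j a1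
  have t2 := T_split j a2
  have t3 := T_split j a3
  have hJ := J_eq j h0 h1
  have hf : ((j + 1).factorial : ℂ) = ((j : ℂ) + 1) * (j.factorial : ℂ) := by
    rw [Nat.factorial_succ]
    push_cast
    ring
  rw [hf] at t1 t2 t3
  apply mul_left_cancel₀ hj
  push_cast
  rw [mul_sub, hD, hJ, hFN, Y]
  linear_combination (1 / 2 : ℂ) * t1 + (1 / 2 : ℂ) * t2 - (1 - 6 * (r : ℂ) ^ 2) * t3

/-! ### The explicit values -/

open Lib.GammaMoments in
lemma D_zero {r : ℚ} (h0 : 0 < r) (h1 : r < 1 / 2) :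
    D 0 r = -(6 * (r : ℝ) ^ 2 * Real.eulerMascheroniConstant) := by
  have h := J_sub_D 0 h0 h1
  have hJ := J_eq 0 h0 h1
  rw [Lib.IncGamma.T_zero (om_re_pos (by linarith) h1),
    Lib.IncGamma.T_zero (om_re_pos (by linarith) (by linarith)),
    Lib.IncGamma.T_zero (om_re_pos (by norm_num) (by norm_num)),
    log_om (by linarith) h1, log_om (r := -r) (by linarith) (by linarith),
    log_om (r := 0) (by norm_num) (by norm_num), m_one] at hJ
  have hc : ((D 0 r : ℝ) : ℂ) =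
      ((-(6 * (r : ℝ) ^ 2 * Real.eulerMascheroniConstant) : ℝ) : ℂ) := by
    rw [Y] at h
    push_cast at h hJ ⊢
    simp only [pow_one, Nat.factorial_zero, Nat.cast_one] at h hJ
    linear_combination hJ - h
  exact_mod_cast hc

open Lib.GammaMoments in
lemma D_one {r : ℚ} (h0 : 0 < r) (h1 : r < 1 / 2) :
    D 1 r = 3 * (r : ℝ) ^ 2 * Real.eulerMascheroniConstant ^ 2 := by
  have h := J_sub_D 1 h0 h1
  have hJ := J_eq 1 h0 h1
  rw [Lib.IncGamma.T_one (om_re_pos (by linarith) h1),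
    Lib.IncGamma.T_one (om_re_pos (by linarith) (by linarith)),
    Lib.IncGamma.T_one (om_re_pos (by norm_num) (by norm_num)),
    log_om (by linarith) h1, log_om (r := -r) (by linarith) (by linarith),
    log_om (r := 0) (by norm_num) (by norm_num), m_one, m_two] at hJ
  have hc : ((D 1 r : ℝ) : ℂ) =
      ((3 * (r : ℝ) ^ 2 * Real.eulerMascheroniConstant ^ 2 : ℝ) : ℂ) := by
    rw [Y] at h
    push_cast at h hJ ⊢
    norm_num [Nat.factorial] at h hJ
    ring_nf at hJ h ⊢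
    simp only [Complex.I_sq] at hJ
    linear_combination hJ - h
  exact_mod_cast hc

open Lib.GammaMoments in
lemma D_two {r : ℚ} (h0 : 0 < r) (h1 : r < 1 / 2) :
    D 2 r = -(2 * (r : ℝ) ^ 2 * (Real.eulerMascheroniConstant ^ 3 + 2 * zetaThree)) := by
  have h := J_sub_D 2 h0 h1
  have hJ := J_eq 2 h0 h1
  rw [Lib.IncGamma.T_two (om_re_pos (by linarith) h1),
    Lib.IncGamma.T_two (om_re_pos (by linarith) (by linarith)),
    Lib.IncGamma.T_two (om_re_pos (by norm_num) (by norm_num)),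
    log_om (by linarith) h1, log_om (r := -r) (by linarith) (by linarith),
    log_om (r := 0) (by norm_num) (by norm_num), m_one, m_two, m_three] at hJ
  have hc : ((D 2 r : ℝ) : ℂ) =
      ((-(2 * (r : ℝ) ^ 2 * (Real.eulerMascheroniConstant ^ 3 + 2 * zetaThree)) : ℝ) : ℂ) := by
    rw [Y] at h
    rw [zetaThree]
    push_cast at h hJ ⊢
    norm_num [Nat.factorial] at h hJ
    ring_nf at hJ h ⊢
    simp only [Complex.I_sq] at hJ
    linear_combination hJ - h
  exact_mod_cast hc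

/-! ### Independence -/

/-- Multiples of three term combinations at all levels are algebraically independent over the
exponentials. -/
theorem algInd_three_smul {K : Type*} [Field K] [CharZero K] {ι : Type*} (lev : ι → ℕ)
    (a b w c μ : ι → K) (hμ : ∀ i, μ i ≠ 0)
    (ha : ∀ i, a i ≠ 0) (hb : ∀ i, b i ≠ 0) (hw : ∀ i, w i ≠ 0)
    (hab : ∀ i i', a i ≠ b i') (haw : ∀ i i', a i ≠ w i')
    (hinj : ∀ i i', lev i = lev i' → a i = a i' → i = i') :
    AlgebraicIndependent (EF.RW K) (fun i : ι =>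
      μ i • (EF.LW (lev i) (a i) + EF.LW (lev i) (b i) - c i • EF.LW (lev i) (w i))) := by
  refine EF.algInd_of_derivations (K := K) (EF.RW K) _ lev (fun i => EF.DD (a i) (lev i)) ?_ ?_ ?_
  · exact fun i => EF.der_RW _ fun β => EF.DD_eW _ _ _
  · intro i i' hle hne
    rw [EF.der_smul, map_sub, map_add, EF.der_smul]
    rcases Nat.lt_or_eq_of_le hle with h | h
    · rw [EF.DD_LW_lt _ (ha i') h, EF.DD_LW_lt _ (hb i') h, EF.DD_LW_lt _ (hw i') h, smul_zero,
        add_zero, sub_zero, smul_zero]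
    · have h1 : a i' ≠ a i := fun h' => hne (hinj i' i h h')
      rw [h, EF.DD_LW_ne (ha i') h1, EF.DD_LW_ne (hb i') (Ne.symm (hab i i')),
        EF.DD_LW_ne (hw i') (Ne.symm (haw i i')), smul_zero, add_zero, sub_zero, smul_zero]
  · intro i
    rw [EF.der_smul, map_sub, map_add, EF.der_smul, EF.DD_LW_self (ha i),
      EF.DD_LW_ne (hb i) (Ne.symm (hab i i)), EF.DD_LW_ne (hw i) (Ne.symm (haw i i)), smul_zero,
      add_zero, sub_zero]
    exact smul_ne_zero (hμ i) (pow_ne_zero _ (neg_ne_zero.2 one_ne_zero))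

/-- The numbers `J j r - D j r`, all `j` and all `r` together, are algebraically independent. -/
lemma algInd_J : AlgebraicIndependent EF.expField
    (fun p : {p : ℕ × ℚ // 0 < p.2 ∧ p.2 < 1 / 2} => ((J p.1.1 p.1.2 - D p.1.1 p.1.2 : ℝ) : ℂ)) := by
  have hneg : ∀ r : ℚ, -om r ≠ 0 := fun r => neg_ne_zero.2 (om_ne_zero r)
  let q : ℚ → EF.QB := fun r => EF.toQB (-om r) (om_alg r).neg
  have hq : ∀ r, q r ≠ 0 := fun r h => hneg r (congrArg (fun t : EF.QB => (t : ℂ)) h)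
  have hqe : ∀ r s, q r = q s → om r = om s := fun r s h =>
    neg_inj.1 (congrArg (fun t : EF.QB => (t : ℂ)) h)
  have hsin : ∀ r : ℚ, 0 < r → r < 1 / 2 → 0 < (om r).im := by
    intro r h0 h1
    rw [om_im]
    have h1' := upper h1
    have h0' : (0 : ℝ) < r := by exact_mod_cast h0
    apply Real.sin_pos_of_pos_of_lt_pi
    · exact mul_pos Real.pi_pos h0'
    · nlinarith [Real.pi_pos]
  have hsin' : ∀ r : ℚ, (om (-r)).im = -(om r).im := by
    intro r
    rw [om_im, om_im]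
    have c1 : Real.pi * ((-r : ℚ) : ℝ) = -(Real.pi * r) := by push_cast; ring
    rw [c1, Real.sin_neg]
  have h := algInd_three_smul (K := EF.QB) (ι := {p : ℕ × ℚ // 0 < p.2 ∧ p.2 < 1 / 2})
    (fun p => p.1.1) (fun p => q p.1.2) (fun p => q (-p.1.2)) (fun _ => q 0)
    (fun p => ((2 * (1 - 6 * p.1.2 ^ 2) : ℚ) : EF.QB))
    (fun p => (((-1) ^ (p.1.1 + 1) * (p.1.1.factorial : ℚ) / 2 : ℚ) : EF.QB)) ?_ (fun p => hq _)
    (fun p => hq _) (fun p => hq _) ?_ ?_ ?_
  · have h2 := EF.algInd_transport h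
    convert h2 using 1
    funext p
    have hL : ∀ r : ℚ, EF.evW EF.phi (EF.LW p.1.1 (q r)) = Lib.IncGamma.Lc (p.1.1 + 1) (-om r) := by
      intro r
      rw [EF.evW_LW _ (hq r)]
      rfl
    rw [J_sub_D p.1.1 p.2.1 p.2.2, Algebra.smul_def, map_mul, EF.evW_algebraMap, map_sub, map_add,
      Algebra.smul_def, map_mul, EF.evW_algebraMap, hL, hL, hL, map_ratCast, map_ratCast, Y]
    push_cast
    rfl
  · intro p
    rw [Ne, Rat.cast_eq_zero]
    have : (p.1.1.factorial : ℚ) ≠ 0 := by exact_mod_cast p.1.1.factorial_ne_zero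
    have h1 : ((-1 : ℚ)) ^ (p.1.1 + 1) ≠ 0 := pow_ne_zero _ (by norm_num)
    exact div_ne_zero (mul_ne_zero h1 this) (by norm_num)
  · intro p p' h
    have h3 := congrArg Complex.im (hqe _ _ h)
    rw [hsin'] at h3
    have := hsin _ p.2.1 p.2.2
    have := hsin _ p'.2.1 p'.2.2
    linarith
  · intro p p' h
    have h3 := congrArg Complex.im (hqe _ _ h)
    have := hsin _ p.2.1 p.2.2
    rw [om_zero, Complex.one_im] at h3
    linarith
  · rintro ⟨⟨j, r⟩, hr⟩ ⟨⟨j', r'⟩, hr'⟩ h1 h2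
    simp only at h1 h2 hr hr'
    have h3 := hqe _ _ h2
    have h4 : ((Real.pi * r : ℝ) : ℂ) * Complex.I = ((Real.pi * r' : ℝ) : ℂ) * Complex.I := by
      rw [← log_om (by linarith [hr.1]) hr.2, ← log_om (by linarith [hr'.1]) hr'.2, h3]
    have h5 : (Real.pi * r : ℝ) = Real.pi * r' := by
      exact_mod_cast mul_right_cancel₀ Complex.I_ne_zero h4
    have h6 : (r : ℝ) = r' := mul_left_cancel₀ Real.pi_pos.ne' h5
    have h7 : r = r' := by exact_mod_cast h6
    subst h7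
    subst h1
    rfl

/-- The constants `γ`, `γ²`, `γ³ + 2 ζ(3)`. -/
noncomputable def const (j : ℕ) : ℝ :=
  if j = 2 then Real.eulerMascheroniConstant ^ 3 + 2 * zetaThree
  else Real.eulerMascheroniConstant ^ (j + 1)

/-- A consequence: the transcendence degree of the field generated by the constants and the
integrals. -/
theorem degree (P : Finset (ℕ × ℚ)) (hP : ∀ p ∈ P, p.1 ≤ 2 ∧ 0 < p.2 ∧ p.2 < 1 / 2) :
    (P.card : Cardinal) ≤ Algebra.trdeg M (IntermediateField.adjoin M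
      ((fun p : ℕ × ℚ => (const p.1 : ℂ)) '' P ∪ (fun p : ℕ × ℚ => (J p.1 p.2 : ℂ)) '' P)) := by
  classical
  set N := IntermediateField.adjoin M
      ((fun p : ℕ × ℚ => (const p.1 : ℂ)) '' P ∪ (fun p : ℕ × ℚ => (J p.1 p.2 : ℂ)) '' P) with hN
  have hc : ∀ p ∈ P, (const p.1 : ℂ) ∈ N := fun p hp =>
    IntermediateField.subset_adjoin _ _ (Or.inl ⟨p, hp, rfl⟩)
  have hJ : ∀ p ∈ P, (J p.1 p.2 : ℂ) ∈ N := fun p hp =>
    IntermediateField.subset_adjoin _ _ (Or.inr ⟨p, hp, rfl⟩)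
  have hQ : ∀ q : ℚ, (q : ℂ) ∈ N := fun q => by simp
  have hY : ∀ p ∈ P, ((J p.1 p.2 - D p.1 p.2 : ℝ) : ℂ) ∈ N := by
    rintro ⟨j, r⟩ hp
    obtain ⟨hj, h0, h1⟩ := hP _ hp
    have hJp := hJ _ hp
    have hcp := hc _ hp
    simp only at hj h0 h1 hJp hcp ⊢
    rw [Complex.ofReal_sub]
    refine N.sub_mem hJp ?_
    interval_cases j
    · rw [D_zero h0 h1]
      rw [const, if_neg (by norm_num)] at hcp
      simp only [zero_add, pow_one] at hcp
      have e2 := hQ (-(6 * r ^ 2))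
      have e3 := N.mul_mem e2 hcp
      convert e3 using 1
      push_cast
      ring
    · rw [D_one h0 h1]
      rw [const, if_neg (by norm_num)] at hcp
      have e2 := hQ (3 * r ^ 2)
      have e3 := N.mul_mem e2 hcp
      convert e3 using 1
      push_cast
      ring
    · rw [D_two h0 h1]
      rw [const, if_pos rfl] at hcp
      have e2 := hQ (-(2 * r ^ 2))
      have e3 := N.mul_mem e2 hcp
      convert e3 using 1
      push_cast
      ring
  have h2 : AlgebraicIndependent M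
      (fun p : {p : ℕ × ℚ // p ∈ P} => ((J p.1.1 p.1.2 - D p.1.1 p.1.2 : ℝ) : ℂ)) := by
    have h3 : AlgebraicIndependent M (fun p : {p : ℕ × ℚ // 0 < p.2 ∧ p.2 < 1 / 2} =>
      ((J p.1.1 p.1.2 - D p.1.1 p.1.2 : ℝ) : ℂ)) := algInd_J
    exact h3.comp (fun p : {p : ℕ × ℚ // p ∈ P} =>
      (⟨p.1, (hP p.1 p.2).2⟩ : {p : ℕ × ℚ // 0 < p.2 ∧ p.2 < 1 / 2}))
      (fun a b hab => Subtype.ext (congrArg (fun t => t.1) hab))
  have h3 : AlgebraicIndependent M (fun p : {p : ℕ × ℚ // p ∈ P} => (⟨_, hY p.1 p.2⟩ : N)) := by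
    rw [← AlgHom.algebraicIndependent_iff N.val Subtype.val_injective]
    exact h2
  have h4 := h3.cardinalMk_le_trdeg
  refine le_trans ?_ h4
  rw [Cardinal.mk_coe_finset]

/-- **Main theorem.** -/
theorem result :
    (∀ (j : ℕ) (r : ℚ), 0 < r → r < 1 / 2 →
      IntegrableOn (fun x : ℝ => kernel r x * Real.log x ^ j / x) (Ioi 1)) ∧
    AlgebraicIndependent M (fun p : {p : ℕ × ℚ // 0 < p.2 ∧ p.2 < 1 / 2} =>
      ((J p.1.1 p.1.2 - D p.1.1 p.1.2 : ℝ) : ℂ)) ∧
    ∀ r : ℚ, 0 < r → r < 1 / 2 →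
      D 0 r = -(6 * (r : ℝ) ^ 2 * Real.eulerMascheroniConstant) ∧
      D 1 r = 3 * (r : ℝ) ^ 2 * Real.eulerMascheroniConstant ^ 2 ∧
      D 2 r = -(2 * (r : ℝ) ^ 2 * (Real.eulerMascheroniConstant ^ 3 + 2 * zetaThree)) :=
  ⟨fun j _ h0 h1 => integrableOn_J j h0 h1, algInd_J,
    fun _ h0 h1 => ⟨D_zero h0 h1, D_one h0 h1, D_two h0 h1⟩⟩

end Pool.Agent.Results.MP_e48a95_nt.TwistedIndependence
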